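import Pool.Agent.N437.SPC.Stm3

/-!
# SPC/SHR: shrinking a symmetric convex body
-/

set_option autoImplicit false

namespace Pool.Agent.N40.SPC

open Finset Pool.Agent.N437.SPC MeasureTheory
open scoped Pointwise

namespace SHR

theorem mkfilter {β : Type} (F : Finset β) (Q : β → Prop) :
    ∃ G : Finset β, ∀ S, S ∈ G ↔ S ∈ F ∧ Q S := by
  classical
  exact ⟨F.filter Q, fun S => by simp⟩

/-- a maximal separated subset -/
theorem maxsep {α : Type} [DecidableEq α] (P : Finset α) (R : α → α → Prop)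
    (hs : ∀ x y, R x y → R y x) (hr : ∀ x, R x x) :
    ∃ S ⊆ P, (∀ x ∈ S, ∀ y ∈ S, R x y → x = y) ∧ ∀ x ∈ P, ∃ s ∈ S, R x s := by
  obtain ⟨F, hF⟩ := mkfilter P.powerset (fun S => ∀ x ∈ S, ∀ y ∈ S, R x y → x = y)
  have hne : F.Nonempty := ⟨∅, by simp [hF]⟩
  obtain ⟨S, hS, hmax⟩ := Finset.exists_max_image F Finset.card hne
  rw [hF, Finset.mem_powerset] at hS
  refine ⟨S, hS.1, hS.2, ?_⟩
  intro x hx
  by_contra hcon
  push Not at hcon
  have hxS : x ∉ S := fun h => hcon x h (hr x)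
  have hmem : insert x S ∈ F := by
    rw [hF, Finset.mem_powerset]
    refine ⟨Finset.insert_subset hx hS.1, ?_⟩
    intro a ha b hb hab
    rw [Finset.mem_insert] at ha hb
    rcases ha with rfl | ha <;> rcases hb with rfl | hb
    · rfl
    · exact absurd hab (hcon b hb)
    · exact absurd (hs _ _ hab) (hcon a ha)
    · exact hS.2 a ha b hb hab
  have := hmax _ hmem
  rw [Finset.card_insert_of_notMem hxS] at this
  omega

variable {d : ℕ}

/-- the embedding of the lattice -/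
def emb (c : Fin d → ℤ) : Fin d → ℝ := fun i => (c i : ℝ)

theorem mem_latS (B : Set (Fin d → ℝ)) (c : Fin d → ℤ) : c ∈ latS B ↔ emb c ∈ B := Iff.rfl

theorem emb_sub (a b : Fin d → ℤ) : emb (a - b) = emb a - emb b := by
  ext i; simp [emb]

theorem emb_add (a b : Fin d → ℤ) : emb (a + b) = emb a + emb b := by
  ext i; simp [emb]

theorem emb_neg (a : Fin d → ℤ) : emb (-a) = -emb a := by
  ext i; simp [emb]

theorem emb_zero : emb (0 : Fin d → ℤ) = 0 := by
  ext i; simp [emb]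

theorem add_mem {B : Set (Fin d → ℝ)} (hB : SymB B) {r s t : ℝ} (hr : 0 ≤ r) (hs : 0 ≤ s)
    (ht : t = r + s) {x y : Fin d → ℝ} (hx : x ∈ r • B) (hy : y ∈ s • B) : x + y ∈ t • B := by
  rw [ht, hB.1.add_smul hr hs]
  exact Set.add_mem_add hx hy

theorem neg_mem {B : Set (Fin d → ℝ)} (hB : SymB B) {r : ℝ} {x : Fin d → ℝ} (hx : x ∈ r • B) :
    -x ∈ r • B := by
  obtain ⟨b, hb, rfl⟩ := hx
  exact ⟨-b, hB.2.2.2 b hb, by simp⟩

theorem zero_mem {B : Set (Fin d → ℝ)} (hB : SymB B) : (0 : Fin d → ℝ) ∈ B := by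
  obtain ⟨x, hx⟩ := hB.2.2.1
  have hx := interior_subset hx
  have h := hB.1 hx (hB.2.2.2 x hx) (by norm_num : (0 : ℝ) ≤ 1 / 2)
    (by norm_num : (0 : ℝ) ≤ 1 / 2) (by norm_num)
  simpa using h

theorem symB_smul {B : Set (Fin d → ℝ)} (hB : SymB B) {r : ℝ} (hr : 0 < r) : SymB (r • B) := by
  refine ⟨hB.1.smul r, hB.2.1.smul r, ?_, fun x hx => neg_mem hB hx⟩
  rw [interior_smul₀ hr.ne']
  exact hB.2.2.1.smul_set

theorem smul_sub {B : Set (Fin d → ℝ)} (hB : SymB B) {r s : ℝ} (hr : 0 ≤ r) (hrs : r ≤ s) :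
    r • B ⊆ s • B := by
  intro x hx
  have h0 : (0 : Fin d → ℝ) ∈ (s - r) • B := ⟨0, zero_mem hB, by simp⟩
  have h := add_mem hB hr (by linarith : (0 : ℝ) ≤ s - r) (by ring : s = r + (s - r)) hx h0
  simpa using h

theorem latS_fin {B : Set (Fin d → ℝ)} (hB : SymB B) : (latS B).Finite := by
  obtain ⟨M, hM⟩ := hB.2.1.isBounded.exists_norm_le
  refine (Set.finite_Icc (fun _ : Fin d => -⌈M⌉) (fun _ => ⌈M⌉)).subset ?_
  intro c hc
  have h := hM _ hc
  have h2 : ∀ i, |c i| ≤ ⌈M⌉ := by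
    intro i
    have h3 := (norm_le_pi_norm (fun i => (c i : ℝ)) i).trans h
    simp only [Real.norm_eq_abs] at h3
    have h4 : ((|c i| : ℤ) : ℝ) ≤ ⌈M⌉ := by
      push_cast
      exact h3.trans (Int.le_ceil M)
    exact_mod_cast h4
  refine ⟨fun i => ?_, fun i => ?_⟩
  · have := (abs_le.1 (h2 i)).1
    simpa using this
  · exact (abs_le.1 (h2 i)).2

/-- the finset of integer points -/
noncomputable def LF {B : Set (Fin d → ℝ)} (hB : SymB B) : Finset (Fin d → ℤ) :=
  (latS_fin hB).toFinset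

theorem mem_LF {B : Set (Fin d → ℝ)} (hB : SymB B) (c : Fin d → ℤ) : c ∈ LF hB ↔ emb c ∈ B := by
  rw [LF, Set.Finite.mem_toFinset]
  rfl

theorem card_LF {B : Set (Fin d → ℝ)} (hB : SymB B) : (LF hB).card = (latS B).ncard := by
  rw [LF, Set.ncard_eq_toFinset_card _ (latS_fin hB)]

/-- the packing bound -/
theorem pack {B : Set (Fin d → ℝ)} (hB : SymB B) (S : Finset (Fin d → ℤ))
    (hS : ∀ s ∈ S, emb s ∈ (4 : ℝ) • B)
    (hd : ∀ x ∈ S, ∀ y ∈ S, emb (x - y) ∈ B → x = y) : S.card ≤ 9 ^ d := by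
  classical
  set T : (Fin d → ℤ) → Set (Fin d → ℝ) := fun s =>
    (fun x => x + -emb s) ⁻¹' ((1 / 2 : ℝ) • B) with hT
  have hhalf : SymB ((1 / 2 : ℝ) • B) := symB_smul hB (by norm_num)
  have hmeas : MeasurableSet ((1 / 2 : ℝ) • B) := hhalf.2.1.measurableSet
  have hTm : ∀ s ∈ S, MeasurableSet (T s) := by
    intro s _
    exact measurable_add_const (-emb s) hmeas
  have hdisj : Set.PairwiseDisjoint (↑S) T := by
    intro x hx y hy hxy
    rw [Function.onFun, Set.disjoint_left]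
    intro z hz hz'
    apply hxy
    apply hd x hx y hy
    have h1 : z + -emb x ∈ (1 / 2 : ℝ) • B := hz
    have h2 : z + -emb y ∈ (1 / 2 : ℝ) • B := hz'
    have h3 := add_mem hB (by norm_num : (0 : ℝ) ≤ 1 / 2) (by norm_num : (0 : ℝ) ≤ 1 / 2)
      (by norm_num : (1 : ℝ) = 1 / 2 + 1 / 2) h2 (neg_mem hB h1)
    rw [one_smul] at h3
    rw [emb_sub]
    convert h3 using 1
    abel
  have hsub : (⋃ s ∈ S, T s) ⊆ (9 / 2 : ℝ) • B := by
    intro z hz
    rw [Set.mem_iUnion₂] at hz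
    obtain ⟨s, hs, hz⟩ := hz
    have h1 : z + -emb s ∈ (1 / 2 : ℝ) • B := hz
    have h3 := add_mem hB (by norm_num : (0 : ℝ) ≤ 4) (by norm_num : (0 : ℝ) ≤ 1 / 2)
      (by norm_num : (9 / 2 : ℝ) = 4 + 1 / 2) (hS s hs) h1
    convert h3 using 1
    abel
  have hvol := measure_mono (μ := (volume : Measure (Fin d → ℝ))) hsub
  rw [measure_biUnion_finset hdisj hTm] at hvol
  have hTv : ∀ s ∈ S, volume (T s) = ENNReal.ofReal ((1 / 2 : ℝ) ^ d) * volume B := by
    intro s _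
    rw [hT]
    simp only
    rw [measure_preimage_add_right, Measure.addHaar_smul]
    simp
  rw [Finset.sum_congr rfl hTv, Finset.sum_const, Measure.addHaar_smul, nsmul_eq_mul,
    ← mul_assoc] at hvol
  have hpos : volume B ≠ 0 :=
    (lt_of_lt_of_le (isOpen_interior.measure_pos volume hB.2.2.1)
      (measure_mono interior_subset)).ne'
  have hfin : volume B ≠ ⊤ := hB.2.1.measure_lt_top.ne
  rw [ENNReal.mul_le_mul_iff_left hpos hfin] at hvol
  have h1 : (S.card : ENNReal) = ENNReal.ofReal (S.card : ℝ) := by simp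
  rw [h1, ← ENNReal.ofReal_mul (by positivity), ENNReal.ofReal_le_ofReal_iff (by positivity)]
    at hvol
  have h2 : |(9 / 2 : ℝ) ^ Module.finrank ℝ (Fin d → ℝ)| = 9 ^ d * (1 / 2) ^ d := by
    rw [Module.finrank_fin_fun, abs_of_nonneg (by positivity), ← mul_pow]
    norm_num
  rw [h2] at hvol
  have h3 : (S.card : ℝ) ≤ 9 ^ d := le_of_mul_le_mul_right hvol (by positivity)
  exact_mod_cast h3

/-- the doubling bound -/
theorem dbl {B : Set (Fin d → ℝ)} (hB : SymB B) :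
    (latS ((4 : ℝ) • B)).ncard ≤ 9 ^ d * (latS B).ncard := by
  classical
  have h4 : SymB ((4 : ℝ) • B) := symB_smul hB (by norm_num)
  obtain ⟨S, hSP, hsep, hcov⟩ := maxsep (LF h4) (fun x y => emb (x - y) ∈ B)
    (fun x y h => by
      have := hB.2.2.2 _ h
      rw [← emb_neg, neg_sub] at this
      exact this)
    (fun x => by
      rw [sub_self, emb_zero]
      exact zero_mem hB)
  have hc := pack hB S (fun s hs => (mem_LF h4 s).1 (hSP hs)) hsep
  rw [← card_LF h4, ← card_LF hB]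
  have hsub : LF h4 ⊆ (S ×ˢ LF hB).image (fun p => p.1 + p.2) := by
    intro x hx
    obtain ⟨s, hs, hxs⟩ := hcov x hx
    rw [Finset.mem_image]
    exact ⟨(s, x - s), Finset.mem_product.2 ⟨hs, (mem_LF hB _).2 hxs⟩, by simp⟩
  calc (LF h4).card ≤ _ := Finset.card_le_card hsub
    _ ≤ (S ×ˢ LF hB).card := Finset.card_image_le
    _ = S.card * (LF hB).card := Finset.card_product _ _
    _ ≤ _ := Nat.mul_le_mul_right _ hc

theorem latS_mono {A B : Set (Fin d → ℝ)} (hB : SymB B) (h : A ⊆ B) :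
    (latS A).ncard ≤ (latS B).ncard :=
  Set.ncard_le_ncard (fun _ hc => h hc) (latS_fin hB)

/-- small dilates contain only the origin -/
theorem small {B : Set (Fin d → ℝ)} (hB : SymB B) :
    ∃ j : ℕ, (latS (((1 / 2 : ℝ) ^ j) • B)).ncard ≤ 1 := by
  obtain ⟨M, hM⟩ := hB.2.1.isBounded.exists_norm_le
  obtain ⟨j, hj⟩ := exists_pow_lt_of_lt_one (show (0 : ℝ) < 1 / (|M| + 1) by positivity)
    (show (1 / 2 : ℝ) < 1 by norm_num)
  refine ⟨j, ?_⟩
  have hsub : latS (((1 / 2 : ℝ) ^ j) • B) ⊆ {0} := by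
    rintro c ⟨b, hb, hbc⟩
    rw [Set.mem_singleton_iff]
    ext i
    have h1 : (c i : ℝ) = (1 / 2 : ℝ) ^ j * b i := by
      have := congrFun hbc i
      simp only [Pi.smul_apply, smul_eq_mul] at this
      exact this.symm
    have h2 : |b i| ≤ |M| := by
      have := (norm_le_pi_norm b i).trans (hM b hb)
      rw [Real.norm_eq_abs] at this
      exact this.trans (le_abs_self M)
    have h3 : |(c i : ℝ)| < 1 := by
      rw [h1, abs_mul, abs_of_pos (by positivity : (0 : ℝ) < (1 / 2) ^ j)]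
      have h4 : (1 / 2 : ℝ) ^ j * (|M| + 1) < 1 := by
        rwa [lt_div_iff₀ (by positivity)] at hj
      nlinarith [abs_nonneg (b i), show (0 : ℝ) < (1 / 2) ^ j by positivity]
    have h5 : |c i| < 1 := by exact_mod_cast h3
    simpa using Int.abs_lt_one_iff.1 h5
  calc _ ≤ ({0} : Set (Fin d → ℤ)).ncard := Set.ncard_le_ncard hsub (Set.finite_singleton _)
    _ = 1 := Set.ncard_singleton _

/-- covering by translates of a smaller body -/
theorem cover {B : Set (Fin d → ℝ)} (hB : SymB B) {t : ℝ} (ht : 0 < t) (ht1 : t ≤ 1) :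
    ∃ S : Finset (Fin d → ℤ), (∀ x ∈ latS ((2 : ℝ) • B), ∃ s ∈ S, ∃ y ∈ latS (t • B), x = s + y) ∧
      S.card * (latS ((t / 2) • B)).ncard ≤ (latS ((4 : ℝ) • B)).ncard := by
  classical
  have h2 : SymB ((2 : ℝ) • B) := symB_smul hB (by norm_num)
  have h4 : SymB ((4 : ℝ) • B) := symB_smul hB (by norm_num)
  have hth : SymB ((t / 2) • B) := symB_smul hB (by positivity)
  have htB : SymB (t • B) := symB_smul hB ht
  obtain ⟨S, hSP, hsep, hcov⟩ := maxsep (LF h2) (fun x y => emb (x - y) ∈ t • B)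
    (fun x y h => by
      have := htB.2.2.2 _ h
      rw [← emb_neg, neg_sub] at this
      exact this)
    (fun x => by
      rw [sub_self, emb_zero]
      exact zero_mem htB)
  refine ⟨S, ?_, ?_⟩
  · intro x hx
    obtain ⟨s, hs, hxs⟩ := hcov x ((mem_LF h2 x).2 hx)
    exact ⟨s, hs, x - s, hxs, by simp⟩
  · rw [← card_LF hth, ← card_LF h4, ← Finset.card_product]
    refine Finset.card_le_card_of_injOn (fun p => p.1 + p.2) ?_ ?_
    · rintro ⟨s, y⟩ hp
      rw [Finset.coe_product, Set.mem_prod] at hp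
      have h5 := (mem_LF h2 s).1 (hSP hp.1)
      have h6 := (mem_LF hth y).1 hp.2
      simp only [Finset.mem_coe]
      rw [mem_LF, emb_add]
      have h7 := add_mem hB (by norm_num : (0 : ℝ) ≤ 2) (by positivity : (0 : ℝ) ≤ t / 2) rfl h5 h6
      exact smul_sub hB (by positivity) (by linarith) h7
    · rintro ⟨s, y⟩ hp ⟨s', y'⟩ hp' heq
      rw [Finset.coe_product, Set.mem_prod] at hp hp'
      simp only at heq
      have h6 := (mem_LF hth y).1 hp.2
      have h6' := (mem_LF hth y').1 hp'.2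
      have h7 := add_mem hB (by positivity : (0 : ℝ) ≤ t / 2) (by positivity : (0 : ℝ) ≤ t / 2)
        (by ring : t = t / 2 + t / 2) h6' (neg_mem hB h6)
      have h8 : s = s' := by
        apply hsep s hp.1 s' hp'.1
        have h9 : s - s' = y' - y := by
          rw [sub_eq_sub_iff_add_eq_add, heq, add_comm]
        rw [h9, emb_sub, sub_eq_add_neg]
        exact h7
      subst h8
      have h10 : y = y' := add_left_cancel heq
      rw [h10]

end SHR

open SHR in
theorem t_SHR : S_SHR := by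
  intro d B N hB hN
  classical
  obtain ⟨j₀, hj₀⟩ := small hB
  have hex : ∃ j : ℕ, (latS (((1 / 2 : ℝ) ^ j) • B)).ncard ≤ N := ⟨j₀, hj₀.trans hN⟩
  set j := Nat.find hex with hj
  have hjN := Nat.find_spec hex
  rw [← hj] at hjN
  have htp : (0 : ℝ) < (1 / 2) ^ j := by positivity
  have ht1 : ((1 / 2 : ℝ)) ^ j ≤ 1 := pow_le_one₀ (by norm_num) (by norm_num)
  obtain ⟨S, hcov, hcard⟩ := cover hB htp ht1
  refine ⟨((1 / 2 : ℝ) ^ j) • B, symB_smul hB htp, hjN, S, hcov, ?_⟩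
  -- the doubling bound for `B' / 2`
  have hth : SymB (((1 / 2 : ℝ) ^ j / 2) • B) := symB_smul hB (by positivity)
  have hd1 := dbl hth
  have he1 : (4 : ℝ) • (((1 / 2 : ℝ) ^ j / 2) • B) = (2 * (1 / 2 : ℝ) ^ j) • B := by
    rw [smul_smul]
    congr 1
    ring
  rw [he1] at hd1
  have hd2 := dbl hB
  have h81 : (9 : ℕ) ^ d * 9 ^ d ≤ 6561 ^ d := by
    rw [← mul_pow]
    exact Nat.pow_le_pow_left (by norm_num) d
  by_cases h0 : j = 0
  · -- no shrinking
    have hd3 : (latS B).ncard ≤ 9 ^ d * (latS (((1 / 2 : ℝ) ^ j / 2) • B)).ncard := by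
      refine le_trans ?_ hd1
      rw [h0]
      refine latS_mono (symB_smul hB (by norm_num)) ?_
      have := smul_sub hB (by norm_num : (0 : ℝ) ≤ 1) (by norm_num : (1 : ℝ) ≤ 2 * (1 / 2) ^ 0)
      rwa [one_smul] at this
    have hpos : 0 < (latS (((1 / 2 : ℝ) ^ j / 2) • B)).ncard := by
      rw [Set.ncard_pos (latS_fin hth)]
      exact ⟨0, by
        rw [mem_latS, emb_zero]
        exact zero_mem hth⟩
    have h1 : S.card * (latS (((1 / 2 : ℝ) ^ j / 2) • B)).ncard ≤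
        (9 ^ d * 9 ^ d) * (latS (((1 / 2 : ℝ) ^ j / 2) • B)).ncard := by
      calc _ ≤ _ := hcard
        _ ≤ _ := hd2
        _ ≤ 9 ^ d * (9 ^ d * (latS (((1 / 2 : ℝ) ^ j / 2) • B)).ncard) :=
            Nat.mul_le_mul_left _ hd3
        _ = _ := by ring
    have h2 : S.card ≤ 9 ^ d * 9 ^ d := Nat.le_of_mul_le_mul_right h1 hpos
    exact Nat.mul_le_mul (h2.trans h81) (le_max_right _ _)
  · have hlt : N < (latS (((1 / 2 : ℝ) ^ (j - 1)) • B)).ncard := by
      have := Nat.find_min hex (show j - 1 < Nat.find hex by omega)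
      omega
    have he2 : (2 * (1 / 2 : ℝ) ^ j) = (1 / 2 : ℝ) ^ (j - 1) := by
      obtain ⟨k, hk⟩ := Nat.exists_eq_succ_of_ne_zero h0
      rw [hk, Nat.succ_sub_one, pow_succ]
      ring
    rw [he2] at hd1
    calc S.card * N ≤ S.card * (9 ^ d * (latS (((1 / 2 : ℝ) ^ j / 2) • B)).ncard) :=
          Nat.mul_le_mul_left _ (hlt.le.trans hd1)
      _ = 9 ^ d * (S.card * (latS (((1 / 2 : ℝ) ^ j / 2) • B)).ncard) := by ring
      _ ≤ 9 ^ d * (9 ^ d * (latS B).ncard) := Nat.mul_le_mul_left _ (hcard.trans hd2)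
      _ = (9 ^ d * 9 ^ d) * (latS B).ncard := by ring
      _ ≤ _ := Nat.mul_le_mul h81 (le_max_left _ _)

end Pool.Agent.N40.SPC
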