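import Pool.Agent.N437.SPC.Stm3

/-!
# SPC/TRIG: few sums of the good elements of a container, in any abelian group
-/

set_option autoImplicit false

namespace Pool.Agent.N40.SPC

open Finset Pool.Agent.N437.SPC
open scoped Pointwise

namespace TRIG

variable {Γ : Type} [AddCommGroup Γ] [DecidableEq Γ]

/-- the elements of `Y` whose image is in `W` -/
def NN (f : Γ → Γ → Γ) (Y W : Finset Γ) (y : Γ) : Finset Γ := Y.filter (fun u => f y u ∈ W)

omit [AddCommGroup Γ] in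
theorem NN_sub (f : Γ → Γ → Γ) (Y W : Finset Γ) (y : Γ) : NN f Y W y ⊆ Y :=
  Finset.filter_subset _ _

omit [AddCommGroup Γ] in
theorem inter_card {A B Y : Finset Γ} (hA : A ⊆ Y) (hB : B ⊆ Y) :
    A.card + B.card ≤ (A ∩ B).card + Y.card := by
  have h1 := Finset.card_union_add_card_inter A B
  have h2 := Finset.card_le_card (Finset.union_subset hA hB)
  omega

/-- the abstract statement -/
theorem tri (f : Γ → Γ → Γ) (Y W : Finset Γ)
    (hcanc : ∀ g ∈ Y, ∀ u ∈ Y, ∀ v ∈ Y, f g u = f g v → u = v)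
    (hdet : ∀ g ∈ Y, ∀ g' ∈ Y, ∀ u ∈ Y, ∀ v ∈ Y, ∀ h ∈ Y, ∀ h' ∈ Y, ∀ s ∈ Y, ∀ t ∈ Y,
      f g u = f h s → f v u = f t s → f g' v = f h' t → f g g' = f h h')
    (hG : 99 * Y.card ≤ 100 * (gd f Y W).card) :
    9 * Y.card ^ 2 * (image₂ f (gd f Y W) (gd f Y W)).card ≤ 10 * W.card ^ 3 := by
  set G := gd f Y W with hGdef
  have hGY : G ⊆ Y := Finset.filter_subset _ _
  have hN : ∀ g ∈ G, 97 * Y.card ≤ 100 * (NN f Y W g).card := by
    intro g hg
    exact (Finset.mem_filter.1 hg).2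
  -- a representation of each element
  have hrep : ∀ x : Γ, ∃ p : Γ × Γ, x ∈ image₂ f G G → p.1 ∈ G ∧ p.2 ∈ G ∧ f p.1 p.2 = x := by
    intro x
    by_cases hx : x ∈ image₂ f G G
    · rw [Finset.mem_image₂] at hx
      obtain ⟨g, hg, g', hg', h⟩ := hx
      exact ⟨(g, g'), fun _ => ⟨hg, hg', h⟩⟩
    · exact ⟨(0, 0), fun h => absurd h hx⟩
  choose r hr using hrep
  set Px : Γ → Finset (Σ _ : Γ, Γ) := fun x =>
    (NN f Y W (r x).2 ∩ G).sigma (fun v => NN f Y W (r x).1 ∩ NN f Y W v) with hPx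
  set S : Finset (Σ _ : Γ, Σ _ : Γ, Γ) := (image₂ f G G).sigma Px with hS
  have hPc : ∀ x ∈ image₂ f G G, 9 * Y.card ^ 2 ≤ 10 * (Px x).card := by
    intro x hx
    obtain ⟨h1, h2, _⟩ := hr x hx
    rw [hPx]
    simp only [Finset.card_sigma]
    have e1 : ∀ v ∈ NN f Y W (r x).2 ∩ G, 94 * Y.card ≤
        100 * (NN f Y W (r x).1 ∩ NN f Y W v).card := by
      intro v hv
      have a1 := hN _ h1
      have a2 := hN v (Finset.mem_inter.1 hv).2
      have a3 := inter_card (NN_sub f Y W (r x).1) (NN_sub f Y W v)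
      omega
    have e2 : 96 * Y.card ≤ 100 * (NN f Y W (r x).2 ∩ G).card := by
      have a1 := hN _ h2
      have a3 := inter_card (NN_sub f Y W (r x).2) hGY
      omega
    have e3 : (NN f Y W (r x).2 ∩ G).card * (94 * Y.card) ≤
        100 * ∑ v ∈ NN f Y W (r x).2 ∩ G, (NN f Y W (r x).1 ∩ NN f Y W v).card := by
      rw [Finset.mul_sum]
      calc (NN f Y W (r x).2 ∩ G).card * (94 * Y.card)
          = ∑ _v ∈ NN f Y W (r x).2 ∩ G, 94 * Y.card := by
            rw [Finset.sum_const, smul_eq_mul]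
        _ ≤ _ := Finset.sum_le_sum e1
    have e4 : (96 * Y.card) * (94 * Y.card) ≤
        100 * (NN f Y W (r x).2 ∩ G).card * (94 * Y.card) := Nat.mul_le_mul_right _ e2
    nlinarith
  have hcard : 9 * Y.card ^ 2 * (image₂ f G G).card ≤ 10 * S.card := by
    rw [hS, Finset.card_sigma, Finset.mul_sum]
    calc 9 * Y.card ^ 2 * (image₂ f G G).card = ∑ _x ∈ image₂ f G G, 9 * Y.card ^ 2 := by
          rw [Finset.sum_const, smul_eq_mul, mul_comm]
      _ ≤ _ := Finset.sum_le_sum hPc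
  refine hcard.trans (Nat.mul_le_mul_left 10 ?_)
  have hW3 : W.card ^ 3 = (W ×ˢ W ×ˢ W).card := by
    rw [Finset.card_product, Finset.card_product]
    ring
  rw [hW3]
  have hmem : ∀ y ∈ S, y.1 ∈ image₂ f G G ∧ (y.2.1 ∈ Y ∧ f (r y.1).2 y.2.1 ∈ W ∧ y.2.1 ∈ G) ∧
      (y.2.2 ∈ Y ∧ f (r y.1).1 y.2.2 ∈ W ∧ f y.2.1 y.2.2 ∈ W) := by
    intro y hy
    rw [hS, Finset.mem_sigma, hPx, Finset.mem_sigma, Finset.mem_inter, Finset.mem_inter] at hy
    obtain ⟨h1, ⟨h2, h3⟩, h4, h5⟩ := hy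
    have h2' := Finset.mem_filter.1 h2
    have h4' := Finset.mem_filter.1 h4
    have h5' := Finset.mem_filter.1 h5
    exact ⟨h1, ⟨h2'.1, h2'.2, h3⟩, ⟨h4'.1, h4'.2, h5'.2⟩⟩
  refine Finset.card_le_card_of_injOn
    (fun y => (f (r y.1).1 y.2.2, f y.2.1 y.2.2, f (r y.1).2 y.2.1)) ?_ ?_
  · intro y hy
    obtain ⟨_, ⟨_, h2, _⟩, ⟨_, h4, h5⟩⟩ := hmem y hy
    simp only [Finset.coe_product, Set.mem_prod, Finset.mem_coe]
    exact ⟨h4, h5, h2⟩
  · rintro ⟨x, v, u⟩ hy ⟨x', v', u'⟩ hy' heq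
    obtain ⟨h1, ⟨h2, _, _⟩, ⟨h4, _, _⟩⟩ := hmem _ hy
    obtain ⟨h1', ⟨h2', _, _⟩, ⟨h4', _, _⟩⟩ := hmem _ hy'
    simp only [Prod.mk.injEq] at heq h1 h2 h4 h1' h2' h4'
    obtain ⟨q1, q2, q3⟩ := heq
    obtain ⟨r1, r2, r3⟩ := hr x h1
    obtain ⟨r1', r2', r3'⟩ := hr x' h1'
    have hx : x = x' := by
      rw [← r3, ← r3']
      exact hdet _ (hGY r1) _ (hGY r2) u h4 v h2 _ (hGY r1') _ (hGY r2') u' h4' v' h2' q1 q2 q3
    subst hx
    have hu : u = u' := hcanc _ (hGY r1) _ h4 _ h4' q1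
    have hv : v = v' := hcanc _ (hGY r2) _ h2 _ h2' q3
    subst hu
    subst hv
    rfl

end TRIG

theorem t_TRIG : S_TRIG := by
  intro Γ _ _ Y W hG
  have h := TRIG.tri (fun a b => a + b) Y W (fun g _ u _ v _ h => add_left_cancel h)
    (fun g _ g' _ u _ v _ h _ h' _ s _ t _ e1 e2 e3 => by
      have h2 : g + g' + (v + u) = h + h' + (v + u) := by
        calc g + g' + (v + u) = (g + u) + (g' + v) := by abel
          _ = (h + s) + (h' + t) := by rw [e1, e3]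
          _ = h + h' + (t + s) := by abel
          _ = h + h' + (v + u) := by rw [e2]
      exact add_right_cancel h2) hG
  exact h

end Pool.Agent.N40.SPC
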